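import Mathlib.Combinatorics.SimpleGraph.Connectivity.Subgraph
import Mathlib.Tactic

set_option autoImplicit false

/-!
# Splitting a finite connected graph into two connected parts which share one vertex
-/

namespace Pool.Agent.Y46.PL

variable {W : Type} (H : SimpleGraph W)

/-- connection inside `s` -/
def Rch (s : Set W) (x y : W) : Prop :=
  Relation.ReflTransGen (fun a b => a ∈ s ∧ b ∈ s ∧ H.Adj a b) x y

/-- `s` is nonempty and connected -/
def Cn (s : Set W) : Prop := s.Nonempty ∧ ∀ x ∈ s, ∀ y ∈ s, Rch H s x y

variable {H}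

lemma Rch.mem {s : Set W} {x y : W} (h : Rch H s x y) (hx : x ∈ s) : y ∈ s := by
  induction h with
  | refl => exact hx
  | tail _ h2 _ => exact h2.2.1

lemma Rch.symm {s : Set W} {x y : W} (h : Rch H s x y) : Rch H s y x := by
  induction h with
  | refl => exact Relation.ReflTransGen.refl
  | tail _ h2 ih => exact Relation.ReflTransGen.head ⟨h2.2.1, h2.1, h2.2.2.symm⟩ ih

lemma Rch.mono {s t : Set W} (hst : s ⊆ t) {x y : W} (h : Rch H s x y) : Rch H t x y := by
  induction h with
  | refl => exact Relation.ReflTransGen.refl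
  | tail _ h2 ih => exact ih.tail ⟨hst h2.1, hst h2.2.1, h2.2.2⟩

lemma Rch.trans {s : Set W} {x y z : W} (h : Rch H s x y) (h' : Rch H s y z) : Rch H s x z :=
  Relation.ReflTransGen.trans h h'

lemma rch_refl (s : Set W) (x : W) : Rch H s x x := Relation.ReflTransGen.refl

lemma cn_iff {s : Set W} : Cn H s ↔ (H.induce s).Connected := by
  constructor
  · rintro ⟨⟨x0, hx0⟩, h⟩
    have key : ∀ x y : W, Rch H s x y → ∀ hx : x ∈ s, ∃ hy : y ∈ s,
        (H.induce s).Reachable ⟨x, hx⟩ ⟨y, hy⟩ := by
      intro x y hxy
      induction hxy with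
      | refl => exact fun hx => ⟨hx, SimpleGraph.Reachable.refl _⟩
      | tail _ h2 ih =>
        intro hx
        obtain ⟨hy, h3⟩ := ih hx
        refine ⟨h2.2.1, h3.trans (SimpleGraph.Adj.reachable ?_)⟩
        exact h2.2.2
    have : Nonempty s := ⟨⟨x0, hx0⟩⟩
    refine SimpleGraph.Connected.mk ?_
    rintro ⟨x, hx⟩ ⟨y, hy⟩
    obtain ⟨_, h3⟩ := key x y (h x hx y hy) hx
    exact h3
  · intro h
    obtain ⟨⟨x0, hx0⟩⟩ := h.nonempty
    refine ⟨⟨x0, hx0⟩, fun x hx y hy => ?_⟩
    obtain ⟨w⟩ := h.preconnected ⟨x, hx⟩ ⟨y, hy⟩
    have key : ∀ a b : s, (H.induce s).Walk a b → Rch H s (a : W) (b : W) := by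
      intro a b w
      induction w with
      | nil => exact rch_refl _ _
      | cons hadj _ ih =>
        refine Relation.ReflTransGen.head ⟨Subtype.coe_prop _, Subtype.coe_prop _, ?_⟩ ih
        exact hadj
    exact key _ _ w

lemma cn_singleton (v : W) : Cn H ({v} : Set W) := by
  refine ⟨⟨v, rfl⟩, ?_⟩
  rintro x rfl y rfl
  exact rch_refl _ _

/-- a star of connected sets around `v` -/
lemma cn_of_center {s : Set W} {v : W} (hv : v ∈ s) (h : ∀ x ∈ s, Rch H s v x) : Cn H s :=
  ⟨⟨v, hv⟩, fun x hx y hy => (h x hx).symm.trans (h y hy)⟩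

lemma cn_union {s t : Set W} (hs : Cn H s) (ht : Cn H t) {v : W} (hvs : v ∈ s) (hvt : v ∈ t) :
    Cn H (s ∪ t) := by
  refine cn_of_center (Or.inl hvs) ?_
  rintro x (hx | hx)
  · exact (hs.2 v hvs x hx).mono Set.subset_union_left
  · exact (ht.2 v hvt x hx).mono Set.subset_union_right

lemma cn_insert {s : Set W} (hs : Cn H s) {v w : W} (hv : v ∈ s) (hvw : H.Adj v w) :
    Cn H (insert w s) := by
  refine cn_of_center (Or.inr hv) ?_
  rintro x (rfl | hx)
  · exact Relation.ReflTransGen.single ⟨Or.inr hv, Or.inl rfl, hvw⟩
  · exact (hs.2 v hv x hx).mono (Set.subset_insert _ _)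

/-- the component of `x` in `D` -/
def Kc (H : SimpleGraph W) (D : Set W) (x : W) : Set W := {y | Rch H D x y}

lemma cn_Kc (D : Set W) (x : W) : Cn H (Kc H D x) := by
  refine cn_of_center (v := x) (rch_refl _ _) ?_
  intro y hy
  have key : ∀ y, Rch H D x y → Rch H (Kc H D x) x y := by
    intro y hy
    induction hy with
    | refl => exact rch_refl _ _
    | tail h1 h2 ih =>
      exact ih.tail ⟨h1, Relation.ReflTransGen.tail h1 h2, h2.2.2⟩
  exact key y hy

/-- if `C` is connected, then the component of `x` in `C \ {v}` is adjacent to `v` -/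
lemma adj_Kc {C : Set W} (hC : Cn H C) {v x : W} (hv : v ∈ C) (hx : x ∈ C) (hxv : x ≠ v) :
    ∃ y ∈ Kc H (C \ {v}) x, H.Adj y v := by
  by_contra hno
  push Not at hno
  have key : ∀ y, Rch H C x y → y ∈ Kc H (C \ {v}) x := by
    intro y hy
    induction hy with
    | refl => exact rch_refl _ _
    | @tail b c h1 h2 ih =>
      have hcv : c ≠ v := by
        rintro rfl
        exact hno b ih h2.2.2
      have hb : b ∈ C \ {v} := Rch.mem ih ⟨hx, hxv⟩
      exact Relation.ReflTransGen.tail ih ⟨hb, ⟨h2.2.1, hcv⟩, h2.2.2⟩
  have h1 := key v (hC.2 x hx v hv)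
  exact (Rch.mem h1 (show x ∈ C \ {v} from ⟨hx, hxv⟩)).2 rfl

lemma cn_Kc_insert {C : Set W} (hC : Cn H C) {v x : W} (hv : v ∈ C) (hx : x ∈ C) (hxv : x ≠ v) :
    Cn H (insert v (Kc H (C \ {v}) x)) := by
  obtain ⟨y, hy, hyv⟩ := adj_Kc hC hv hx hxv
  exact cn_insert (cn_Kc _ _) hy hyv

theorem split_aux [DecidableEq W] (C L : Finset W) (u : W) (l : ℕ) (hl : 1 ≤ l)
    (hCL : 3 * l ≤ (C ∩ L).card) : ∀ (n : ℕ) (C1 C2 : Finset W) (v : W), C2.card = n →
    C1 ∪ C2 = C → C1 ∩ C2 = {v} → Cn H (C1 : Set W) → Cn H (C2 : Set W) → u ∈ C1 →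
    l ≤ (C2 ∩ L).card →
    ∃ D1 D2 : Finset W, D1 ⊆ C ∧ D2 ⊆ C ∧ (D1 ∩ D2).card ≤ 1 ∧ u ∈ D1 ∧
      Cn H (D1 : Set W) ∧ Cn H (D2 : Set W) ∧ l ≤ (D1 ∩ L).card ∧ l ≤ (D2 ∩ L).card := by
  classical
  intro n
  induction n using Nat.strong_induction_on with
  | _ n ih =>
  intro C1 C2 v hn hU hI h1 h2 hu hL2
  have hv : v ∈ C1 ∩ C2 := by rw [hI]; exact Finset.mem_singleton_self v
  have hv1 : v ∈ C1 := (Finset.mem_inter.1 hv).1
  have hv2 : v ∈ C2 := (Finset.mem_inter.1 hv).2
  have hdisj : ∀ x, x ∈ C1 → x ∈ C2 → x = v := by
    intro x hx1 hx2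
    have : x ∈ C1 ∩ C2 := Finset.mem_inter.2 ⟨hx1, hx2⟩
    rw [hI] at this
    exact Finset.mem_singleton.1 this
  rcases Nat.lt_or_ge (C2 ∩ L).card (2 * l) with hlt | hge
  · refine ⟨C1, C2, ?_, ?_, ?_, hu, h1, h2, ?_, hL2⟩
    · rw [← hU]; exact Finset.subset_union_left
    · rw [← hU]; exact Finset.subset_union_right
    · rw [hI]; simp
    · have h3 : (C ∩ L).card ≤ (C1 ∩ L).card + (C2 ∩ L).card := by
        rw [← hU, Finset.union_inter_distrib_right]
        exact Finset.card_union_le _ _
      omega
  · -- the case where `C2` is big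
    by_cases hne : ∃ p ∈ C2, p ≠ v
    · obtain ⟨p, hp2, hpv⟩ := hne
      set D : Set W := (C2 : Set W) \ {v} with hD
      -- the component of `p`
      set P : Finset W := C2.filter (fun y => y ∈ Kc H D p) with hP
      have hPmem : ∀ y, y ∈ P ↔ y ∈ Kc H D p := by
        intro y
        rw [hP, Finset.mem_filter]
        constructor
        · exact fun h => h.2
        · intro h
          have : y ∈ D := Rch.mem h ⟨hp2, hpv⟩
          exact ⟨this.1, h⟩
      have hPv : v ∉ P := by
        intro h
        have : v ∈ D := Rch.mem ((hPmem v).1 h) ⟨hp2, hpv⟩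
        exact this.2 rfl
      have hP2 : P ⊆ C2 := Finset.filter_subset _ _
      have hpP : p ∈ P := (hPmem p).2 (rch_refl _ _)
      -- the rest
      set Q : Finset W := (C2.erase v) \ P with hQ
      have hQmem : ∀ y, y ∈ Q ↔ y ∈ C2 ∧ y ≠ v ∧ y ∉ P := by
        intro y
        rw [hQ, Finset.mem_sdiff, Finset.mem_erase]
        tauto
      by_cases hQe : Q = ∅
      · -- `C2 \ {v}` is connected
        have hPe : (P : Set W) = Kc H D p := by
          ext y
          exact hPmem y
        have hPer : C2.erase v = P := by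
          ext y
          rw [Finset.mem_erase]
          constructor
          · rintro ⟨h3, h4⟩
            by_contra h5
            have : y ∈ Q := (hQmem y).2 ⟨h4, h3, h5⟩
            rw [hQe] at this
            exact absurd this (Finset.notMem_empty y)
          · intro h
            exact ⟨fun h3 => hPv (h3 ▸ h), hP2 h⟩
        obtain ⟨v', hv', hadj⟩ := adj_Kc h2 hv2 hp2 hpv
        have hv'P : v' ∈ P := (hPmem v').2 hv'
        have hv'2 : v' ∈ C2 := hP2 hv'P
        have hv'v : v' ≠ v := fun h => hPv (h ▸ hv'P)
        refine ih (C2.erase v).card ?_ (insert v' C1) (C2.erase v) v' rfl ?_ ?_ ?_ ?_ ?_ ?_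
        · rw [← hn]
          exact Finset.card_erase_lt_of_mem hv2
        · rw [← hU]
          ext y
          simp only [Finset.mem_union, Finset.mem_insert, Finset.mem_erase]
          constructor
          · rintro ((rfl | h) | h)
            · exact Or.inr hv'2
            · exact Or.inl h
            · exact Or.inr h.2
          · rintro (h | h)
            · exact Or.inl (Or.inr h)
            · by_cases hyv : y = v
              · exact Or.inl (Or.inr (hyv ▸ hv1))
              · exact Or.inr ⟨hyv, h⟩
        · ext y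
          simp only [Finset.mem_inter, Finset.mem_insert, Finset.mem_erase, Finset.mem_singleton]
          constructor
          · rintro ⟨rfl | h, h3, h4⟩
            · rfl
            · exact absurd (hdisj y h h4) h3
          · rintro rfl
            exact ⟨Or.inl rfl, hv'v, hv'2⟩
        · rw [Finset.coe_insert]
          exact cn_insert h1 (show v ∈ (C1 : Set W) from hv1) hadj.symm
        · rw [hPer, hPe]
          exact cn_Kc _ _
        · exact Finset.mem_insert_of_mem hu
        · have h3 : (C2 ∩ L).card ≤ ((C2.erase v) ∩ L).card + 1 := by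
            have h4 : C2 ∩ L ⊆ insert v ((C2.erase v) ∩ L) := by
              intro y hy
              rw [Finset.mem_inter] at hy
              rw [Finset.mem_insert, Finset.mem_inter, Finset.mem_erase]
              by_cases hyv : y = v
              · exact Or.inl hyv
              · exact Or.inr ⟨⟨hyv, hy.1⟩, hy.2⟩
            exact (Finset.card_le_card h4).trans (Finset.card_insert_le _ _)
          omega
      · -- two parts
        obtain ⟨q, hq⟩ := Finset.nonempty_iff_ne_empty.2 hQe
        have hQv : v ∉ Q := fun h => ((hQmem v).1 h).2.1 rfl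
        have hcP : Cn H ((insert v P : Finset W) : Set W) := by
          have hPe : (P : Set W) = Kc H D p := by
            ext y
            exact hPmem y
          rw [Finset.coe_insert, hPe]
          exact cn_Kc_insert h2 hv2 hp2 hpv
        have hcQ : Cn H ((insert v Q : Finset W) : Set W) := by
          refine cn_of_center (v := v) (by simp) ?_
          intro x hx
          rw [Finset.coe_insert] at hx
          rcases hx with rfl | hx
          · exact rch_refl _ _
          · obtain ⟨hx2, hxv, hxP⟩ := (hQmem x).1 hx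
            have h3 := cn_Kc_insert h2 hv2 hx2 hxv
            have h4 : insert v (Kc H D x) ⊆ ((insert v Q : Finset W) : Set W) := by
              rw [Finset.coe_insert]
              refine Set.insert_subset_insert ?_
              intro y hy
              have hyD : y ∈ D := Rch.mem hy ⟨hx2, hxv⟩
              refine (hQmem y).2 ⟨hyD.1, hyD.2, fun hyP => hxP ?_⟩
              exact (hPmem x).2 (((hPmem y).1 hyP).trans (Rch.symm hy))
            exact (h3.2 v (Or.inl rfl) x (Or.inr (rch_refl _ _))).mono h4
        have hcover : ∀ y ∈ C2, y ∈ insert v P ∨ y ∈ insert v Q := by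
          intro y hy
          by_cases hyv : y = v
          · exact Or.inl (hyv ▸ Finset.mem_insert_self _ _)
          · by_cases hyP : y ∈ P
            · exact Or.inl (Finset.mem_insert_of_mem hyP)
            · exact Or.inr (Finset.mem_insert_of_mem ((hQmem y).2 ⟨hy, hyv, hyP⟩))
        have hQ2 : Q ⊆ C2 := fun y hy => ((hQmem y).1 hy).1
        have hPQ : ∀ y, y ∈ P → y ∈ Q → False := fun y h3 h4 => ((hQmem y).1 h4).2.2 h3
        have hpQ : p ∉ Q := fun h => hPQ p hpP h
        have hqP : q ∉ P := fun h => hPQ q h hq
        have hqv : q ≠ v := ((hQmem q).1 hq).2.1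
        have hsum : (C2 ∩ L).card ≤ ((insert v P) ∩ L).card + ((insert v Q) ∩ L).card := by
          have h4 : C2 ∩ L ⊆ ((insert v P) ∩ L) ∪ ((insert v Q) ∩ L) := by
            intro y hy
            rw [Finset.mem_inter] at hy
            rw [Finset.mem_union, Finset.mem_inter, Finset.mem_inter]
            rcases hcover y hy.1 with h | h
            · exact Or.inl ⟨h, hy.2⟩
            · exact Or.inr ⟨h, hy.2⟩
          exact (Finset.card_le_card h4).trans (Finset.card_union_le _ _)
        -- a common argument
        have step : ∀ A B : Finset W, A ⊆ C2 → B ⊆ C2 → v ∉ A → v ∉ B →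
            (∀ y, y ∈ A → y ∈ B → False) → (∀ y ∈ C2, y ∈ insert v A ∨ y ∈ insert v B) →
            (∃ b ∈ B, b ≠ v) → Cn H ((insert v A : Finset W) : Set W) →
            Cn H ((insert v B : Finset W) : Set W) → l ≤ ((insert v A) ∩ L).card →
            ∃ D1 D2 : Finset W, D1 ⊆ C ∧ D2 ⊆ C ∧ (D1 ∩ D2).card ≤ 1 ∧ u ∈ D1 ∧
              Cn H (D1 : Set W) ∧ Cn H (D2 : Set W) ∧ l ≤ (D1 ∩ L).card ∧
              l ≤ (D2 ∩ L).card := by
          intro A B hA hB hvA hvB hAB hcov hb hcA hcB hlA
          obtain ⟨b, hbB, hbv⟩ := hb
          refine ih (insert v A).card ?_ (C1 ∪ insert v B) (insert v A) v rfl ?_ ?_ ?_ hcA ?_ hlA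
          · rw [← hn]
            refine Finset.card_lt_card ⟨?_, fun h => ?_⟩
            · exact Finset.insert_subset hv2 hA
            · have := h (hB hbB)
              rcases Finset.mem_insert.1 this with h3 | h3
              · exact hbv h3
              · exact hAB b h3 hbB
          · rw [← hU]
            ext y
            constructor
            · intro h
              rcases Finset.mem_union.1 h with h | h
              · rcases Finset.mem_union.1 h with h | h
                · exact Finset.mem_union_left _ h
                · rcases Finset.mem_insert.1 h with rfl | h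
                  · exact Finset.mem_union_left _ hv1
                  · exact Finset.mem_union_right _ (hB h)
              · rcases Finset.mem_insert.1 h with rfl | h
                · exact Finset.mem_union_left _ hv1
                · exact Finset.mem_union_right _ (hA h)
            · intro h
              rcases Finset.mem_union.1 h with h | h
              · exact Finset.mem_union_left _ (Finset.mem_union_left _ h)
              · rcases hcov y h with h3 | h3
                · exact Finset.mem_union_right _ h3
                · exact Finset.mem_union_left _ (Finset.mem_union_right _ h3)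
          · ext y
            rw [Finset.mem_inter, Finset.mem_union, Finset.mem_insert, Finset.mem_insert,
              Finset.mem_singleton]
            constructor
            · rintro ⟨h3, h4⟩
              rcases h4 with h4 | h4
              · exact h4
              · rcases h3 with h3 | h3 | h3
                · exact hdisj y h3 (hA h4)
                · exact h3
                · exact absurd h3 (fun h3 => hAB y h4 h3)
            · rintro rfl
              exact ⟨Or.inl hv1, Or.inl rfl⟩
          · rw [Finset.coe_union]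
            exact cn_union h1 hcB (v := v) (show v ∈ (C1 : Set W) from hv1)
              (by rw [Finset.coe_insert]; exact Set.mem_insert _ _)
          · exact Finset.mem_union_left _ hu
        rcases Nat.lt_or_ge ((insert v P) ∩ L).card l with h3 | h3
        · refine step Q P hQ2 hP2 hQv hPv (fun y h4 h5 => hPQ y h5 h4) ?_ ⟨p, hpP, hpv⟩ hcQ hcP
            (by omega)
          intro y hy
          exact (hcover y hy).symm
        · exact step P Q hP2 hQ2 hPv hQv hPQ hcover ⟨q, hq, hqv⟩ hcP hcQ h3
    · push Not at hne
      exfalso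
      have h3 : C2 ∩ L ⊆ {v} := by
        intro y hy
        rw [Finset.mem_singleton]
        exact hne y (Finset.mem_inter.1 hy).1
      have h4 := Finset.card_le_card h3
      rw [Finset.card_singleton] at h4
      omega

end Pool.Agent.Y46.PL
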