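import Pool.Agent.Y990.PL.Stm
import Pool.Agent.Y46.PL.SplitAux

set_option autoImplicit false

namespace Pool.Agent.Y46.PL

/-- `S_split` of `Pool.Agent.Y990.PL.Stm`. -/
theorem split : Pool.Agent.Y990.PL.S_split := by
  intro W _ H C L u l hl hu hC hCL
  have h1 : ({u} : Finset W) ∪ C = C := by
    ext y
    rw [Finset.mem_union, Finset.mem_singleton]
    constructor
    · rintro (rfl | h)
      · exact hu
      · exact h
    · exact Or.inr
  have h2 : ({u} : Finset W) ∩ C = {u} := by
    ext y
    rw [Finset.mem_inter, Finset.mem_singleton]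
    constructor
    · exact fun h => h.1
    · rintro rfl
      exact ⟨rfl, hu⟩
  obtain ⟨D1, D2, h3, h4, h5, h6, h7, h8, h9, h10⟩ := split_aux (H := H) C L u l hl hCL C.card
    {u} C u rfl h1 h2 (by rw [Finset.coe_singleton]; exact cn_singleton u) (cn_iff.2 hC)
    (Finset.mem_singleton_self u) (by omega)
  exact ⟨D1, D2, h3, h4, h5, h6, cn_iff.1 h7, cn_iff.1 h8, h9, h10⟩

end Pool.Agent.Y46.PL
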