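import Pool.Agent.Y990.PL.Stm

set_option autoImplicit false

/-! `S_pivcount`: there are at most as many open pivotal bonds as open pivotal sites. -/

namespace Pool.Agent.Y46.PL

open Pool.Agent.W783.PC Pool.Agent.W424.PC Pool.Agent.Y990.PL

/-- if removing `e` disconnects `x` from `y` then exactly one end of `e` is on the side of `x` -/
lemma cross1 {W : Type} {H : SimpleGraph W} {x y : W} {e : Sym2 W} (h : H.Reachable x y)
    (hn : ¬ (H.deleteEdges {e}).Reachable x y) :
    ∃ c d, e = s(c, d) ∧ (H.deleteEdges {e}).Reachable x c ∧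
      ¬ (H.deleteEdges {e}).Reachable x d := by
  by_contra hno
  apply hn
  obtain ⟨w⟩ := h
  have key : ∀ a b : W, H.Walk a b → (H.deleteEdges {e}).Reachable x a →
      (H.deleteEdges {e}).Reachable x b := by
    intro a b w
    induction w with
    | nil => exact id
    | @cons a c b hadj _ ih =>
      intro ha
      apply ih
      by_cases he : s(a, c) = e
      · by_contra hc
        exact hno ⟨a, c, he.symm, ha, hc⟩
      · refine ha.trans (SimpleGraph.Adj.reachable ?_)
        rw [SimpleGraph.deleteEdges_adj]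
        exact ⟨hadj, he⟩
  exact key x y w (SimpleGraph.Reachable.refl _)

lemma cross2 {W : Type} {H : SimpleGraph W} {x y : W} {e : Sym2 W} (h : H.Reachable x y)
    (hn : ¬ (H.deleteEdges {e}).Reachable x y) :
    ∃ c d, e = s(c, d) ∧ (H.deleteEdges {e}).Reachable x c ∧
      (H.deleteEdges {e}).Reachable d y := by
  obtain ⟨c, d, he, hc, _⟩ := cross1 h hn
  obtain ⟨c', d', he', hc', _⟩ := cross1 h.symm (fun h' => hn h'.symm)
  refine ⟨c, d, he, hc, ?_⟩
  have h1 : s(c, d) = s(c', d') := he.symm.trans he'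
  rcases Sym2.eq_iff.1 h1 with ⟨h2, _⟩ | ⟨_, h3⟩
  · subst h2
    exact absurd (hc.trans hc'.symm) hn
  · subst h3
    exact hc'.symm

lemma inj_aux {W : Type} {H : SimpleGraph W} {x y c d d' : W} (hne : s(c, d) ≠ s(c, d'))
    (hcd : H.Adj c d) (h1 : (H.deleteEdges {s(c, d)}).Reachable x c)
    (h2 : (H.deleteEdges {s(c, d)}).Reachable d y)
    (h3 : ¬ (H.deleteEdges {s(c, d)}).Reachable x y)
    (h4 : (H.deleteEdges {s(c, d')}).Reachable x c)
    (h5 : ¬ (H.deleteEdges {s(c, d')}).Reachable x y) : False := by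
  apply h5
  have hd : (H.deleteEdges {s(c, d')}).Reachable x d := by
    refine h4.trans (SimpleGraph.Adj.reachable ?_)
    rw [SimpleGraph.deleteEdges_adj]
    exact ⟨hcd, hne⟩
  refine hd.trans ?_
  by_contra hno
  have hle : (H.deleteEdges {s(c, d)}).deleteEdges {s(c, d')} ≤ H.deleteEdges {s(c, d')} := by
    intro a b hab
    rw [SimpleGraph.deleteEdges_adj, SimpleGraph.deleteEdges_adj] at hab
    rw [SimpleGraph.deleteEdges_adj]
    exact ⟨hab.1.1, hab.2⟩
  have hno' : ¬ ((H.deleteEdges {s(c, d)}).deleteEdges {s(c, d')}).Reachable d y :=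
    fun h => hno (h.mono hle)
  obtain ⟨c1, d1, he, hc1, hd1⟩ := cross2 h2 hno'
  have hle' : (H.deleteEdges {s(c, d)}).deleteEdges {s(c, d')} ≤ H.deleteEdges {s(c, d)} :=
    SimpleGraph.deleteEdges_le _
  rcases Sym2.eq_iff.1 he with ⟨h6, _⟩ | ⟨h6, _⟩
  · subst h6
    exact h3 (h1.trans ((hc1.mono hle').symm.trans h2))
  · subst h6
    exact h3 (h1.trans (hd1.mono hle'))

lemma G_upd_bond {n : ℕ} (E : Set (Sym2 (V n))) (ω : Cfg n) (R : Set (V n)) (e : Sym2 (V n)) :
    G E (upd (Sum.inr e) false ω) R = (G E ω R).deleteEdges {e} := by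
  ext x y
  rw [SimpleGraph.deleteEdges_adj]
  have hl : ∀ z : V n, upd (Sum.inr e) false ω (Sum.inl z) = ω (Sum.inl z) :=
    fun z => upd_ne (by simp) _ _
  constructor
  · rintro ⟨h1, h2, h3, h4, h5, h6, h7⟩
    rw [hl] at h5 h6
    have hne : s(x, y) ≠ e := by
      rintro rfl
      rw [upd_self] at h7
      exact absurd h7 (by simp)
    rw [upd_ne (by simpa using hne)] at h7
    exact ⟨⟨h1, h2, h3, h4, h5, h6, h7⟩, hne⟩
  · rintro ⟨⟨h1, h2, h3, h4, h5, h6, h7⟩, hne⟩
    have hne' : s(x, y) ≠ e := hne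
    refine ⟨h1, h2, h3, h4, ?_, ?_, ?_⟩
    · rw [hl]; exact h5
    · rw [hl]; exact h6
    · rw [upd_ne (by simpa using hne')]; exact h7

lemma G_upd_site {n : ℕ} (E : Set (Sym2 (V n))) (ω : Cfg n) (R : Set (V n)) (v : V n) {a b : V n}
    (h : (G E (upd (Sum.inl v) false ω) R).Adj a b) : (G E ω R).Adj a b ∧ a ≠ v ∧ b ≠ v := by
  obtain ⟨h1, h2, h3, h4, h5, h6, h7⟩ := h
  have ha : a ≠ v := by
    rintro rfl
    rw [upd_self] at h5
    exact absurd h5 (by simp)
  have hb : b ≠ v := by
    rintro rfl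
    rw [upd_self] at h6
    exact absurd h6 (by simp)
  rw [upd_ne (by simpa using ha)] at h5
  rw [upd_ne (by simpa using hb)] at h6
  rw [upd_ne (by simp)] at h7
  exact ⟨⟨h1, h2, h3, h4, h5, h6, h7⟩, ha, hb⟩

open scoped Classical in
/-- `S_pivcount` of `Pool.Agent.Y990.PL.Stm`. -/
theorem pivcount : S_pivcount := by
  intro n E R T x0 _ _ _ ω
  set A := Arm E (R : Set (V n)) (T : Set (V n)) x0 with hA
  set H := G E ω (R : Set (V n)) with hH
  by_cases hω : ω ∈ A
  · obtain ⟨hx0, y, hyT, hy⟩ := hω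
    -- the pivotal bonds
    have hpiv : ∀ e : Sym2 (V n), ω (Sum.inr e) = true → ω ∈ Piv A (Sum.inr e) →
        ∀ z ∈ (T : Set (V n)), ¬ (H.deleteEdges {e}).Reachable x0 z := by
      intro e _ h2 z hz hr
      apply h2.2
      refine ⟨?_, z, hz, ?_⟩
      · rw [upd_ne (by simp)]; exact hx0
      · rw [G_upd_bond]; exact hr
    have hex : ∀ e : Sym2 (V n), ω (Sum.inr e) = true → ω ∈ Piv A (Sum.inr e) →
        ∃ c d, e = s(c, d) ∧ H.Adj c d ∧ (H.deleteEdges {e}).Reachable x0 c ∧
          (H.deleteEdges {e}).Reachable d y := by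
      intro e h1 h2
      have h3 := hpiv e h1 h2 y hyT
      obtain ⟨c, d, h4, h5, h6⟩ := cross2 hy h3
      refine ⟨c, d, h4, ?_, h5, h6⟩
      by_contra hno
      apply h3
      have h7 : H.deleteEdges {e} = H := by
        ext a b
        rw [SimpleGraph.deleteEdges_adj]
        constructor
        · exact fun h => h.1
        · intro h
          refine ⟨h, fun h8 => ?_⟩
          have h9 : s(a, b) = s(c, d) := h4 ▸ h8
          rcases Sym2.eq_iff.1 h9 with ⟨rfl, rfl⟩ | ⟨rfl, rfl⟩
          · exact hno h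
          · exact hno h.symm
      rw [h7]
      exact hy
    let f : Sym2 (V n) → V n := fun e =>
      if h : ∃ c d, e = s(c, d) ∧ H.Adj c d ∧ (H.deleteEdges {e}).Reachable x0 c ∧
          (H.deleteEdges {e}).Reachable d y then h.choose else x0
    have hf : ∀ e : Sym2 (V n), ω (Sum.inr e) = true → ω ∈ Piv A (Sum.inr e) →
        ∃ d, e = s(f e, d) ∧ H.Adj (f e) d ∧ (H.deleteEdges {e}).Reachable x0 (f e) ∧
          (H.deleteEdges {e}).Reachable d y := by
      intro e h1 h2
      have h3 := hex e h1 h2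
      have h4 : f e = h3.choose := dif_pos h3
      rw [h4]
      exact h3.choose_spec
    refine Finset.card_le_card_of_injOn f ?_ ?_
    · intro e he
      rw [Finset.coe_filter] at he
      obtain ⟨_, h1, h2⟩ := he
      obtain ⟨d, h3, h4, h5, _⟩ := hf e h1 h2
      have h7 : f e ∈ (R : Set (V n)) := h4.2.1
      have h8 : ω (Sum.inl (f e)) = true := h4.2.2.2.2.1
      rw [Finset.coe_filter]
      refine ⟨h7, h8, ?_, ?_⟩
      · rw [upd_of h8]
        exact ⟨hx0, y, hyT, hy⟩
      · rintro ⟨h9, z, hz, hr⟩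
        apply hpiv e h1 h2 z hz
        refine hr.mono ?_
        intro a b hab
        obtain ⟨h10, h11, h12⟩ := G_upd_site E ω R (f e) hab
        rw [SimpleGraph.deleteEdges_adj]
        refine ⟨h10, fun h13 => ?_⟩
        have h14 : s(a, b) = s(f e, d) := h3 ▸ h13
        rcases Sym2.eq_iff.1 h14 with ⟨h15, _⟩ | ⟨_, h15⟩
        · exact h11 h15
        · exact h12 h15
    · intro e he e' he' hee
      rw [Finset.coe_filter] at he he'
      obtain ⟨_, h1, h2⟩ := he
      obtain ⟨_, h1', h2'⟩ := he'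
      obtain ⟨d, h3, h4, h5, h6⟩ := hf e h1 h2
      obtain ⟨d', h3', h4', h5', h6'⟩ := hf e' h1' h2'
      by_contra hne
      have hn := hpiv e h1 h2 y hyT
      have hn' := hpiv e' h1' h2' y hyT
      have e1 : e' = s(f e, d') := by rw [hee]; exact h3'
      have hne2 : s(f e, d) ≠ s(f e, d') := by
        rw [← h3, ← e1]; exact hne
      refine inj_aux (x := x0) (y := y) hne2 h4 ?_ ?_ ?_ ?_ ?_
      · rw [← h3]; exact h5
      · rw [← h3]; exact h6
      · rw [← h3]; exact hn
      · rw [← e1]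
        have : (H.deleteEdges {e'}).Reachable x0 (f e') := h5'
        rw [← hee] at this
        exact this
      · rw [← e1]; exact hn'
  · have h0 : R.sym2.filter (fun e => ω (Sum.inr e) = true ∧ ω ∈ Piv A (Sum.inr e)) = ∅ := by
      rw [Finset.filter_eq_empty_iff]
      rintro e _ ⟨h1, h2⟩
      apply hω
      have := h2.1
      rwa [upd_of h1] at this
    rw [h0, Finset.card_empty]
    exact Nat.zero_le _

end Pool.Agent.Y46.PL
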